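import Pool.Agent.Lib.lead.CXGraphRed

/-!
# 2-factors of the underlying graph with a directed cycle: definitions and membership in NP
-/

namespace Pool.Agent.Run7.h878.TF

open Pool.Agent.Lib.CX

/-- The underlying graph of the digraph `R` (loops of `R` are ignored) has a 2-factor `F`, one of whose cycles is a
directed cycle `c 0, c 1, …, c (m - 1), c 0` of `R`. -/
def Fac {V : Type} (R : V → V → Prop) : Prop :=
  ∃ F : SimpleGraph V, (∀ u v, F.Adj u v → R u v ∨ R v u) ∧ (∀ v, (F.neighborSet v).ncard = 2) ∧
    ∃ m : ℕ, 3 ≤ m ∧ ∃ c : ZMod m → V, Function.Injective c ∧ ∀ i, R (c i) (c (i + 1)) ∧ F.Adj (c i) (c (i + 1))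

theorem Fac.of_equiv {V W : Type} {R : V → V → Prop} {S : W → W → Prop} (e : V ≃ W)
    (h : ∀ u v, R u v ↔ S (e u) (e v)) (hR : Fac R) : Fac S := by
  obtain ⟨F, h1, h2, m, hm, c, h3, h4⟩ := hR
  refine ⟨F.comap e.symm, fun u v huv => ?_, fun v => ?_, m, hm, fun i => e (c i), e.injective.comp h3, fun i => ?_⟩
  · have := h1 _ _ huv
    rw [h, h] at this
    simpa using this
  · rw [← h2 (e.symm v), ← Set.ncard_image_of_injective _ e.injective]
    congr 1
    ext w
    simp only [SimpleGraph.mem_neighborSet, SimpleGraph.comap_adj, Set.mem_image]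
    constructor
    · intro hw
      exact ⟨e.symm w, hw, by simp⟩
    · rintro ⟨w, hw, rfl⟩
      simpa using hw
  · have := h4 i
    rw [h] at this
    exact ⟨this.1, by simpa using this.2⟩

/-- The problem: `a` is a digraph on the vertices `0, …, n - 1` -/
def HasFac (a : Gr) : Prop := Fac a.arc

/-- the check of a certificate -/
def Check (a : Gr) (c : List (ℕ × ℕ) × List ℕ) : Prop :=
  (∀ e ∈ c.1, a.adjB e.1 e.2 = true) ∧
    (∀ v < a.n, ((List.range a.n).countP fun u => decide ((v, u) ∈ c.1 ∨ (u, v) ∈ c.1)) = 2) ∧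
    3 ≤ c.2.length ∧ (∀ i < c.2.length, ∀ j < c.2.length, c.2.getD i a.n = c.2.getD j a.n → i = j) ∧
    ∀ i < c.2.length, c.2.getD i a.n < a.n ∧ (c.2.getD i a.n, c.2.getD ((i + 1) % c.2.length) a.n) ∈ a.2 ∧
      ((c.2.getD i a.n, c.2.getD ((i + 1) % c.2.length) a.n) ∈ c.1 ∨
        (c.2.getD ((i + 1) % c.2.length) a.n, c.2.getD i a.n) ∈ c.1)

instance (a c) : Decidable (Check a c) := by unfold Check; infer_instance

theorem countP_range (n : ℕ) (p : ℕ → Bool) : (List.range n).countP p = ({i : Fin n | p i = true} : Set (Fin n)).ncard := by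
  classical
  rw [List.countP_eq_length_filter, ← List.toFinset_card_of_nodup (List.nodup_range.filter _),
    Set.ncard_eq_toFinset_card']
  symm
  apply Finset.card_bij (fun i _ => i.1)
  · intro i hi; simpa using hi
  · intro i _ j _ h; exact Fin.ext h
  · intro x hx
    simp at hx
    exact ⟨⟨x, hx.1⟩, by simpa using hx.2, rfl⟩

theorem val_succ {m : ℕ} (hm : 3 ≤ m) (i : ZMod m) : (i + 1).val = (i.val + 1) % m := by
  have : Fact (1 < m) := ⟨by omega⟩
  rw [ZMod.val_add, ZMod.val_one]

theorem hasFac_inNP : InNP HasFac := by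
  refine InNP.of_cert' (γ := List (ℕ × ℕ) × List ℕ) Check (i := fun _ _ => inferInstance)
    (fun a => (a.n * a.n * (6 * a.n + 6) + 2) + (a.n * (3 * a.n + 3) + 2) + 1) ?_ (by fun_prop) (fun a c h => ?_)
    fun a h => ?_
  · unfold Check; fun_prop
  · obtain ⟨h1, h2, h3, h4, h5⟩ := h
    obtain ⟨L, C⟩ := c
    simp only at h1 h2 h3 h4 h5
    let F : SimpleGraph (Fin a.n) := SimpleGraph.fromRel fun u v => (u.1, v.1) ∈ L
    have hF : ∀ u v, F.Adj u v ↔ ((u.1, v.1) ∈ L ∨ (v.1, u.1) ∈ L) := by
      intro u v
      rw [SimpleGraph.fromRel_adj, and_iff_right_iff_imp]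
      rintro (h | h) rfl <;>
      · have := (a.adjB_iff u u).1 (h1 _ h)
        exact a.G.irrefl this
    have : NeZero C.length := ⟨by omega⟩
    refine ⟨F, fun u v h => ?_, fun v => ?_, C.length, h3,
      fun z => ⟨C.getD z.val a.n, (h5 _ (ZMod.val_lt z)).1⟩, fun z w e => ?_, fun z => ?_⟩
    · rw [hF] at h
      have : a.G.Adj u v := h.elim (fun h => (a.adjB_iff u v).1 (h1 _ h)) fun h => ((a.adjB_iff v u).1 (h1 _ h)).symm
      exact ((a.adj_iff u v).1 this).2
    · rw [← h2 v v.2, countP_range]
      congr 1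
      ext u
      simp [hF]
    · exact ZMod.val_injective _ (h4 _ (ZMod.val_lt z) _ (ZMod.val_lt w) (congrArg Fin.val e))
    · have h6 := h5 _ (ZMod.val_lt z)
      rw [← val_succ h3] at h6
      exact ⟨h6.2.1, (hF _ _).2 h6.2.2⟩
  · obtain ⟨F, h1, h2, m, hm, c, h3, h4⟩ := h
    classical
    have : NeZero m := ⟨by omega⟩
    let L : List (ℕ × ℕ) := (List.finRange a.n ×ˢ List.finRange a.n).filterMap
      fun p => if F.Adj p.1 p.2 then some (p.1.1, p.2.1) else none
    have hL : ∀ u v : Fin a.n, (u.1, v.1) ∈ L ↔ F.Adj u v := by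
      intro u v
      simp only [L, List.mem_filterMap, List.mem_product, List.mem_finRange, true_and, Prod.exists, and_self]
      constructor
      · rintro ⟨x, y, h⟩
        split at h
        · rename_i h5
          simp only [Option.some.injEq, Prod.mk.injEq] at h
          rwa [Fin.ext h.1, Fin.ext h.2] at h5
        · simp at h
      · exact fun h => ⟨u, v, by rw [if_pos h]⟩
    have hL' : ∀ e ∈ L, ∃ u v : Fin a.n, e = (u.1, v.1) ∧ F.Adj u v := by
      intro e he
      simp only [L, List.mem_filterMap, List.mem_product, List.mem_finRange, true_and, Prod.exists, and_self] at he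
      obtain ⟨x, y, h⟩ := he
      split at h
      · rename_i h5
        simp only [Option.some.injEq] at h
        exact ⟨x, y, h.symm, h5⟩
      · simp at h
    have hlen : m ≤ a.n := by
      have := Fintype.card_le_of_injective c h3
      simpa [ZMod.card] using this
    have hC : ∀ i < m, ((List.range m).map fun i : ℕ => (c (i : ZMod m)).1).getD i a.n = (c (i : ZMod m)).1 := by
      intro i hi
      simp [List.getD_eq_getElem?_getD, hi]
    refine ⟨(L, (List.range m).map fun i : ℕ => (c (i : ZMod m)).1), ?_, ?_, ?_, ?_, ?_, ?_⟩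
    · rw [size_pair]
      refine Nat.add_le_add_right (Nat.add_le_add ?_ ?_) 1
      · refine (size_list_le (B := 6 * a.n + 5) fun e he => ?_).trans ?_
        · obtain ⟨u, v, rfl, -⟩ := hL' e he
          have h5 := size_nat_le u.1
          have h6 := size_nat_le v.1
          have := u.2
          have := v.2
          rw [size_pair]
          omega
        · refine Nat.add_le_add_right (Nat.mul_le_mul_right _ ?_) 2
          refine (List.length_filterMap_le _ _).trans ?_
          rw [List.length_product, List.length_finRange]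
      · refine (size_list_le (B := 3 * a.n + 2) fun e he => ?_).trans ?_
        · obtain ⟨i, -, rfl⟩ := List.mem_map.1 he
          have h5 := size_nat_le (c (i : ZMod m)).1
          have := (c (i : ZMod m)).2
          exact h5.trans (by show 3 * (c (i : ZMod m)).1 + 2 ≤ _; omega)
        · rw [List.length_map, List.length_range]
          exact Nat.add_le_add_right (Nat.mul_le_mul_right _ hlen) 2
    · intro e he
      obtain ⟨u, v, rfl, h5⟩ := hL' e he
      rw [a.adjB_iff, a.adj_iff]
      exact ⟨fun h => h5.ne (Fin.ext h), h1 u v h5⟩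
    · intro v hv
      obtain ⟨v, rfl⟩ : ∃ v' : Fin a.n, v'.1 = v := ⟨⟨v, hv⟩, rfl⟩
      rw [← h2 v, countP_range]
      congr 1
      ext u
      simp [hL, F.adj_comm u v]
    · simpa using hm
    · simp only [List.length_map, List.length_range]
      intro i hi j hj
      rw [hC i hi, hC j hj]
      intro e
      have := h3 (Fin.ext e)
      have h6 := congrArg ZMod.val this
      rwa [ZMod.val_natCast, ZMod.val_natCast, Nat.mod_eq_of_lt hi, Nat.mod_eq_of_lt hj] at h6
    · simp only [List.length_map, List.length_range]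
      intro i hi
      rw [hC i hi, hC _ (Nat.mod_lt _ (by omega))]
      have h6 : ((((i + 1) % m : ℕ)) : ZMod m) = (i : ZMod m) + 1 := by
        rw [ZMod.natCast_mod]; push_cast; rfl
      rw [h6, hL, hL]
      exact ⟨(c _).2, (h4 i).1, .inl (h4 i).2⟩

/-- A permutation without fixed points and without 2-cycles gives a 2-factor. -/
theorem perm_factor {V : Type} (s : V ≃ V) (h1 : ∀ x, s x ≠ x) (h2 : ∀ x, s (s x) ≠ x) (v : V) :
    ((SimpleGraph.fromRel fun x y => s x = y).neighborSet v).ncard = 2 := by
  rw [Set.ncard_eq_two]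
  refine ⟨s v, s.symm v, fun h => h2 v ?_, ?_⟩
  · rw [h, Equiv.apply_symm_apply]
  · ext w
    simp only [SimpleGraph.mem_neighborSet, SimpleGraph.fromRel_adj, Set.mem_insert_iff, Set.mem_singleton_iff]
    constructor
    · rintro ⟨-, h | h⟩
      · exact .inl h.symm
      · exact .inr (by rw [← h, Equiv.symm_apply_apply])
    · rintro (rfl | rfl)
      · exact ⟨(h1 v).symm, .inl rfl⟩
      · refine ⟨fun h => h1 v ?_, .inr (s.apply_symm_apply v)⟩
        conv_lhs => rw [h]
        exact s.apply_symm_apply v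

end Pool.Agent.Run7.h878.TF
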