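import Pool.Agent.Run7.h878.TF.Defs

/-!
# NP-hardness

The digraph consists of a cyclic sequence of vertices `(0, i)`; between `(0, i)` and `(0, i + 1)` there are two
directed paths, of vertices `(1, i, s, j)` with `s = 0, 1`. Every vertex `(1, i, s, j)` lies in a cycle of length four
with three private vertices `(2, i, s, j)`, `(3, i, s, j)`, `(4, i, s, j)`, which also form a triangle. Every clause
`k` has two adjacent vertices `(5, k)`, `(6, k)`, which form triangles with the vertices of its literals.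
-/

namespace Pool.Agent.Run7.h878.TF

open Pool.Agent.Lib.CX

variable (φ : List (Cl3 ℕ))

abbrev T := ℕ × ℕ × ℕ × ℕ

/-- number of variables -/
abbrev nv : ℕ := 3 * φ.length + 3
/-- length of the paths -/
abbrev Ln : ℕ := 3 * φ.length + 2

/-- the numbered literals of a clause -/
def lits (C : Cl3 ℕ) : List (ℕ × ℕ × Bool) := [(0, C.1), (1, C.2.1), (2, C.2.2)]

def blk : List (ℕ × ℕ × ℕ) := List.range (nv φ) ×ˢ (List.range 2 ×ˢ List.range (Ln φ))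

/-- the vertices -/
def vs : List T :=
  ((List.range (nv φ)).map fun i => (0, i, 0, 0)) ++
    ((blk φ).flatMap (fun p => [(1, p), (2, p), (3, p), (4, p)]) ++
      (List.range φ.length).flatMap fun k => [(5, k, 0, 0), (6, k, 0, 0)])

/-- the arcs -/
def es : List (T × T) :=
  ((List.range (nv φ) ×ˢ List.range 2).flatMap fun p =>
    [((0, p.1, 0, 0), (1, p.1, p.2, 0)), ((1, p.1, p.2, Ln φ - 1), (0, (p.1 + 1) % nv φ, 0, 0))]) ++
    (((List.range (nv φ) ×ˢ (List.range 2 ×ˢ List.range (Ln φ - 1))).map fun p =>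
      ((1, p), (1, p.1, p.2.1, p.2.2 + 1))) ++
      ((blk φ).flatMap (fun p => [((1, p), (2, p)), ((1, p), (4, p)), ((2, p), (3, p)), ((3, p), (4, p)), ((2, p), (4, p))]) ++
        φ.zipIdx.flatMap fun q => ((5, q.2, 0, 0), (6, q.2, 0, 0)) :: (lits q.1).flatMap fun l =>
          [((1, l.2.1, l.2.2.toNat, 3 * q.2 + l.1), (5, q.2, 0, 0)),
            ((1, l.2.1, l.2.2.toNat, 3 * q.2 + l.1), (6, q.2, 0, 0))]))

theorem mem_blk (p : ℕ × ℕ × ℕ) : p ∈ blk φ ↔ p.1 < nv φ ∧ p.2.1 < 2 ∧ p.2.2 < Ln φ := by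
  obtain ⟨i, s, j⟩ := p
  rw [blk, List.mem_product, List.mem_product, List.mem_range, List.mem_range, List.mem_range]

theorem mem_vs (x : T) : x ∈ vs φ ↔ (∃ i < nv φ, x = (0, i, 0, 0)) ∨
    (∃ p ∈ blk φ, x = (1, p) ∨ x = (2, p) ∨ x = (3, p) ∨ x = (4, p)) ∨
    ∃ k < φ.length, x = (5, k, 0, 0) ∨ x = (6, k, 0, 0) := by
  simp only [vs, List.mem_append, List.mem_map, List.mem_range, List.mem_flatMap, List.mem_cons, List.not_mem_nil,
    or_false, eq_comm]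

theorem mem_es (x y : T) : (x, y) ∈ es φ ↔
    (∃ i < nv φ, ∃ s < 2, (x = (0, i, 0, 0) ∧ y = (1, i, s, 0)) ∨
      (x = (1, i, s, Ln φ - 1) ∧ y = (0, (i + 1) % nv φ, 0, 0))) ∨
    (∃ i < nv φ, ∃ s < 2, ∃ j < Ln φ - 1, x = (1, i, s, j) ∧ y = (1, i, s, j + 1)) ∨
    (∃ p ∈ blk φ, (x = (1, p) ∧ y = (2, p)) ∨ (x = (1, p) ∧ y = (4, p)) ∨ (x = (2, p) ∧ y = (3, p)) ∨
      (x = (3, p) ∧ y = (4, p)) ∨ (x = (2, p) ∧ y = (4, p))) ∨
    ∃ k C, φ[k]? = some C ∧ ((x = (5, k, 0, 0) ∧ y = (6, k, 0, 0)) ∨ ∃ l ∈ lits C,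
      (x = (1, l.2.1, l.2.2.toNat, 3 * k + l.1) ∧ y = (5, k, 0, 0)) ∨
        (x = (1, l.2.1, l.2.2.toNat, 3 * k + l.1) ∧ y = (6, k, 0, 0))) := by
  rw [es, List.mem_append, List.mem_append, List.mem_append]
  refine or_congr ?_ (or_congr ?_ (or_congr ?_ ?_))
  · simp only [List.mem_flatMap, List.mem_cons, List.not_mem_nil, or_false, Prod.mk.injEq]
    constructor
    · rintro ⟨⟨i, s⟩, h1, h3⟩
      rw [List.mem_product, List.mem_range, List.mem_range] at h1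
      exact ⟨i, h1.1, s, h1.2, h3⟩
    · rintro ⟨i, h1, s, h2, h3⟩
      exact ⟨(i, s), List.mem_product.2 ⟨List.mem_range.2 h1, List.mem_range.2 h2⟩, h3⟩
  · simp only [List.mem_map]
    constructor
    · rintro ⟨⟨i, s, j⟩, h1, h4⟩
      rw [List.mem_product, List.mem_product, List.mem_range, List.mem_range, List.mem_range] at h1
      obtain ⟨rfl, rfl⟩ := Prod.mk.inj h4
      exact ⟨i, h1.1, s, h1.2.1, j, h1.2.2, rfl, rfl⟩
    · rintro ⟨i, h1, s, h2, j, h3, rfl, rfl⟩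
      exact ⟨(i, s, j), List.mem_product.2 ⟨List.mem_range.2 h1, List.mem_product.2
        ⟨List.mem_range.2 h2, List.mem_range.2 h3⟩⟩, rfl⟩
  · simp only [List.mem_flatMap, List.mem_cons, List.not_mem_nil, or_false, Prod.mk.injEq]
  · simp only [List.mem_flatMap, List.mem_cons, List.not_mem_nil, or_false]
    constructor
    · rintro ⟨⟨C, k⟩, h1, h2⟩
      rw [List.mk_mem_zipIdx_iff_getElem?] at h1
      refine ⟨k, C, h1, h2.imp (fun h => Prod.mk.inj h) ?_⟩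
      rintro ⟨l, hl, h | h⟩
      · exact ⟨l, hl, .inl (Prod.mk.inj h)⟩
      · exact ⟨l, hl, .inr (Prod.mk.inj h)⟩
    · rintro ⟨k, C, h1, h2⟩
      refine ⟨(C, k), List.mk_mem_zipIdx_iff_getElem?.2 h1, h2.imp (fun h => Prod.ext h.1 h.2) ?_⟩
      rintro ⟨l, hl, h | h⟩
      · exact ⟨l, hl, .inl (Prod.ext h.1 h.2)⟩
      · exact ⟨l, hl, .inr (Prod.ext h.1 h.2)⟩

theorem lits_lt {C : Cl3 ℕ} {l : ℕ × ℕ × Bool} (h : l ∈ lits C) : l.1 < 3 := by
  simp only [lits, List.mem_cons, List.not_mem_nil, or_false] at h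
  rcases h with rfl | rfl | rfl <;> simp

theorem ok_lits (v : ℕ → Bool) (C : Cl3 ℕ) : C.ok v ↔ ∃ l ∈ lits C, v l.2.1 = l.2.2 := by
  simp [Cl3.ok, lits]

/-- the named digraph -/
def R (x y : {x // x ∈ vs φ}) : Prop := (x.1, y.1) ∈ es φ

/-! ### from a 2-factor to an assignment -/

theorem backward (hφ : ∀ C ∈ φ, ∀ x ∈ C.vars, x < 3 * φ.length) (h : Fac (R φ)) : Sat3 φ := by
  obtain ⟨F, h1, h2, m, hm, c, h3, h4⟩ := h
  have hnv : nv φ = 3 * φ.length + 3 := rfl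
  have hLn : Ln φ = 3 * φ.length + 2 := rfl
  -- the names on the directed cycle
  let S : T → Prop := fun x => ∃ z, (c z).1 = x
  have out : ∀ x, S x → ∃ y, S y ∧ (x, y) ∈ es φ := by
    rintro x ⟨z, rfl⟩
    exact ⟨_, ⟨z + 1, rfl⟩, (h4 z).1⟩
  have inn : ∀ x, S x → ∃ y, S y ∧ (y, x) ∈ es φ := by
    rintro x ⟨z, rfl⟩
    refine ⟨_, ⟨z - 1, rfl⟩, ?_⟩
    have := (h4 (z - 1)).1
    rwa [sub_add_cancel] at this
  have nxt : ∀ x y y', S x → S y → S y' → (∀ w, (w, y) ∈ es φ → w = x) → (∀ w, (w, y') ∈ es φ → w = x) → y = y' := by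
    rintro x y y' ⟨z, hz⟩ ⟨z1, rfl⟩ ⟨z2, rfl⟩ h5 h6
    have e1 := (h4 (z1 - 1)).1
    have e2 := (h4 (z2 - 1)).1
    rw [sub_add_cancel] at e1 e2
    have e3 : c (z1 - 1) = c z := Subtype.ext ((h5 _ e1).trans hz.symm)
    have e4 : c (z2 - 1) = c z := Subtype.ext ((h6 _ e2).trans hz.symm)
    have e5 := h3 (e3.trans e4.symm)
    have e6 : z1 = z2 := by
      have := congrArg (· + 1) e5
      simpa using this
    rw [e6]
  -- dead ends
  have d6 : ∀ k, ¬ S (6, k, 0, 0) := by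
    intro k hk
    obtain ⟨y, -, hy⟩ := out _ hk
    rw [mem_es] at hy
    rcases hy with ⟨i, -, s, -, h | h⟩ | ⟨i, -, s, -, j, -, h⟩ | ⟨p, -, h | h | h | h | h⟩ | ⟨k', C, -, h | ⟨l, -, h | h⟩⟩ <;>
      simp at h
  have d5 : ∀ k, ¬ S (5, k, 0, 0) := by
    intro k hk
    obtain ⟨y, hy', hy⟩ := out _ hk
    rw [mem_es] at hy
    rcases hy with ⟨i, -, s, -, h | h⟩ | ⟨i, -, s, -, j, -, h⟩ | ⟨p, -, h | h | h | h | h⟩ | ⟨k', C, -, h | ⟨l, -, h | h⟩⟩
    all_goals first | (simp at h; done) | (exact d6 _ (h.2 ▸ hy'))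
  have d4 : ∀ p, ¬ S (4, p) := by
    intro k hk
    obtain ⟨y, -, hy⟩ := out _ hk
    rw [mem_es] at hy
    rcases hy with ⟨i, -, s, -, h | h⟩ | ⟨i, -, s, -, j, -, h⟩ | ⟨p, -, h | h | h | h | h⟩ | ⟨k', C, -, h | ⟨l, -, h | h⟩⟩ <;>
      simp at h
  have d3 : ∀ p, ¬ S (3, p) := by
    intro k hk
    obtain ⟨y, hy', hy⟩ := out _ hk
    rw [mem_es] at hy
    rcases hy with ⟨i, -, s, -, h | h⟩ | ⟨i, -, s, -, j, -, h⟩ | ⟨p, -, h | h | h | h | h⟩ | ⟨k', C, -, h | ⟨l, -, h | h⟩⟩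
    all_goals first | (simp at h; done) | (exact d4 _ (h.2 ▸ hy'))
  have d2 : ∀ p, ¬ S (2, p) := by
    intro k hk
    obtain ⟨y, hy', hy⟩ := out _ hk
    rw [mem_es] at hy
    rcases hy with ⟨i, -, s, -, h | h⟩ | ⟨i, -, s, -, j, -, h⟩ | ⟨p, -, h | h | h | h | h⟩ | ⟨k', C, -, h | ⟨l, -, h | h⟩⟩
    all_goals first | (simp at h; done) | (exact d4 _ (h.2 ▸ hy')) | (exact d3 _ (h.2 ▸ hy'))
  -- along the paths
  have p1 : ∀ i s j, j + 1 < Ln φ → S (1, i, s, j) → S (1, i, s, j + 1) := by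
    intro i s j hj hk
    obtain ⟨y, hy', hy⟩ := out _ hk
    rw [mem_es] at hy
    rcases hy with ⟨i, -, s, -, h | h⟩ | ⟨i, -, s, -, j, -, h⟩ | ⟨p, -, h | h | h | h | h⟩ | ⟨k', C, -, h | ⟨l, -, h | h⟩⟩
    · simp at h
    · simp only [Prod.mk.injEq, true_and] at h
      omega
    · simp only [Prod.mk.injEq, true_and] at h
      obtain ⟨⟨rfl, rfl, rfl⟩, rfl⟩ := h
      exact hy'
    · exact absurd (h.2 ▸ hy') (d2 _)
    · exact absurd (h.2 ▸ hy') (d4 _)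
    · simp at h
    · simp at h
    · simp at h
    · simp at h
    · exact absurd (h.2 ▸ hy') (d5 _)
    · exact absurd (h.2 ▸ hy') (d6 _)
  have p2 : ∀ i s, S (1, i, s, Ln φ - 1) → S (0, (i + 1) % nv φ, 0, 0) := by
    intro i s hk
    obtain ⟨y, hy', hy⟩ := out _ hk
    rw [mem_es] at hy
    rcases hy with ⟨i, -, s, -, h | h⟩ | ⟨i, -, s, -, j, hj, h⟩ | ⟨p, -, h | h | h | h | h⟩ | ⟨k', C, -, h | ⟨l, -, h | h⟩⟩
    · simp at h
    · simp only [Prod.mk.injEq, true_and] at h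
      obtain ⟨⟨rfl, rfl, -⟩, rfl⟩ := h
      exact hy'
    · simp only [Prod.mk.injEq, true_and] at h
      omega
    · exact absurd (h.2 ▸ hy') (d2 _)
    · exact absurd (h.2 ▸ hy') (d4 _)
    · simp at h
    · simp at h
    · simp at h
    · simp at h
    · exact absurd (h.2 ▸ hy') (d5 _)
    · exact absurd (h.2 ▸ hy') (d6 _)
  have p3 : ∀ i s j, j < Ln φ → S (1, i, s, 0) → S (1, i, s, j) := by
    intro i s j
    induction j with
    | zero => exact fun _ h => h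
    | succ j ih => exact fun hj h => p1 _ _ _ hj (ih (by omega) h)
  have p4 : ∀ i s j, j < Ln φ → S (1, i, s, j) → S (0, (i + 1) % nv φ, 0, 0) := by
    intro i s j hj hk
    refine p2 i s ?_
    obtain ⟨d, hd⟩ : ∃ d, j + d = Ln φ - 1 := ⟨Ln φ - 1 - j, by omega⟩
    rw [← hd]
    clear hj
    have : ∀ e ≤ d, S (1, i, s, j + e) := by
      intro e
      induction e with
      | zero => exact fun _ => hk
      | succ e ih => exact fun he => p1 i s (j + e) (by omega) (ih (by omega))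
    exact this d le_rfl
  have p5 : ∀ i, S (0, i, 0, 0) → ∃ s < 2, S (1, i, s, 0) := by
    intro i hk
    obtain ⟨y, hy', hy⟩ := out _ hk
    rw [mem_es] at hy
    rcases hy with ⟨i, -, s, hs, h | h⟩ | ⟨i, -, s, -, j, -, h⟩ | ⟨p, -, h | h | h | h | h⟩ | ⟨k', C, -, h | ⟨l, -, h | h⟩⟩
    · simp only [Prod.mk.injEq, true_and, and_true] at h
      obtain ⟨rfl, rfl⟩ := h
      exact ⟨s, hs, hy'⟩
    all_goals simp at h
  -- all vertices `(0, i)` are on the cycle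
  have a0 : ∃ i < nv φ, S (0, i, 0, 0) := by
    have hS : S (c 0).1 := ⟨0, rfl⟩
    rcases (mem_vs φ _).1 (c 0).2 with ⟨i, hi, e⟩ | ⟨p, hp, e | e | e | e⟩ | ⟨k, hk, e | e⟩
    · exact ⟨i, hi, e ▸ hS⟩
    · rw [mem_blk] at hp
      exact ⟨_, Nat.mod_lt _ (by omega), p4 p.1 p.2.1 p.2.2 hp.2.2 (e ▸ hS)⟩
    · exact absurd (e ▸ hS) (d2 _)
    · exact absurd (e ▸ hS) (d3 _)
    · exact absurd (e ▸ hS) (d4 _)
    · exact absurd (e ▸ hS) (d5 _)
    · exact absurd (e ▸ hS) (d6 _)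
  have a1 : ∀ i, S (0, i, 0, 0) → S (0, (i + 1) % nv φ, 0, 0) := by
    intro i hi
    obtain ⟨s, -, h5⟩ := p5 i hi
    exact p4 i s 0 (by omega) h5
  have a2 : ∀ i < nv φ, S (0, i, 0, 0) := by
    obtain ⟨i0, hi0, h0⟩ := a0
    have : ∀ d, S (0, (i0 + d) % nv φ, 0, 0) := by
      intro d
      induction d with
      | zero => rwa [Nat.add_zero, Nat.mod_eq_of_lt hi0]
      | succ d ih =>
        have := a1 _ ih
        rwa [Nat.mod_add_mod] at this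
    intro i hi
    have h5 := this (nv φ + i - i0)
    rwa [show i0 + (nv φ + i - i0) = i + nv φ by omega, Nat.add_mod_right, Nat.mod_eq_of_lt hi] at h5
  -- at most one of the two paths is used
  have in0 : ∀ i s w, (w, ((1, i, s, 0) : T)) ∈ es φ → w = (0, i, 0, 0) := by
    intro i s w hw
    rw [mem_es] at hw
    rcases hw with ⟨i, -, s, hs, h | h⟩ | ⟨i, -, s, -, j, -, h⟩ | ⟨p, -, h | h | h | h | h⟩ | ⟨k', C, -, h | ⟨l, -, h | h⟩⟩
    · simp only [Prod.mk.injEq, true_and, and_true] at h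
      rw [h.1, h.2.1]
    all_goals simp at h
  have one : ∀ i < nv φ, S (1, i, 0, 0) → ¬ S (1, i, 1, 0) := by
    intro i hi h5 h6
    have := nxt _ _ _ (a2 i hi) h5 h6 (in0 i 0) (in0 i 1)
    simp at this
  classical
  refine ⟨fun i => decide (S (1, i, 0, 0)), fun C hC => (ok_lits _ C).2 ?_⟩
  obtain ⟨k, hk, rfl⟩ := List.mem_iff_getElem.1 hC
  -- a neighbour of the clause vertex
  have hv5 : ((5, k, 0, 0) : T) ∈ vs φ := (mem_vs φ _).2 (.inr (.inr ⟨k, hk, .inl rfl⟩))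
  obtain ⟨x, y, hxy, hN⟩ := Set.ncard_eq_two.1 (h2 ⟨(5, k, 0, 0), hv5⟩)
  have hnb : ∀ w, F.Adj ⟨(5, k, 0, 0), hv5⟩ w → w.1 = (6, k, 0, 0) ∨
      ∃ l ∈ lits φ[k], w.1 = (1, l.2.1, l.2.2.toNat, 3 * k + l.1) := by
    intro w hw
    rcases h1 _ _ hw with h5 | h5
    · have h5' := (mem_es φ _ _).1 h5
      rcases h5' with ⟨i, -, s, hs, h | h⟩ | ⟨i, -, s, -, j, -, h⟩ | ⟨p, -, h | h | h | h | h⟩ | ⟨k', C, -, h | ⟨l, -, h | h⟩⟩
      all_goals first
        | (simp at h; done)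
        | (simp only [Prod.mk.injEq, true_and, and_true] at h; obtain ⟨rfl, h6⟩ := h; exact .inl h6)
    · have h5' := (mem_es φ _ _).1 h5
      rcases h5' with ⟨i, -, s, hs, h | h⟩ | ⟨i, -, s, -, j, -, h⟩ | ⟨p, -, h | h | h | h | h⟩ |
        ⟨k', C, hC', h | ⟨l, hl, h | h⟩⟩
      all_goals first
        | (simp at h; done)
        | (simp only [Prod.mk.injEq, true_and, and_true] at h
           obtain ⟨h6, rfl⟩ := h
           obtain rfl : φ[k] = C := Option.some_injective _ ((List.getElem?_eq_getElem hk).symm.trans hC')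
           exact .inr ⟨l, hl, h6⟩)
  have hP : ∃ w, F.Adj ⟨(5, k, 0, 0), hv5⟩ w ∧ ∃ l ∈ lits φ[k], w.1 = (1, l.2.1, l.2.2.toNat, 3 * k + l.1) := by
    have hx : F.Adj ⟨(5, k, 0, 0), hv5⟩ x := by
      have : x ∈ F.neighborSet ⟨(5, k, 0, 0), hv5⟩ := by rw [hN]; simp
      exact this
    have hy : F.Adj ⟨(5, k, 0, 0), hv5⟩ y := by
      have : y ∈ F.neighborSet ⟨(5, k, 0, 0), hv5⟩ := by rw [hN]; simp
      exact this
    rcases hnb x hx with h5 | h5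
    · rcases hnb y hy with h6 | h6
      · exact absurd (Subtype.ext (h5.trans h6.symm)) hxy
      · exact ⟨y, hy, h6⟩
    · exact ⟨x, hx, h5⟩
  obtain ⟨w, hw, l, hl, hwl⟩ := hP
  refine ⟨l, hl, ?_⟩
  have hl3 := lits_lt hl
  have hx : l.2.1 < nv φ := by
    have : l.2.1 < 3 * φ.length := by
      refine hφ _ hC _ ?_
      simp only [lits, List.mem_cons, List.not_mem_nil, or_false] at hl
      rcases hl with e | e | e <;> rw [e] <;> simp [Cl3.vars]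
    omega
  -- it is not on the cycle
  have hnS : ¬ S w.1 := by
    rintro ⟨z, hz⟩
    have hz' : c z = w := Subtype.ext hz
    obtain ⟨x', y', hxy', hN'⟩ := Set.ncard_eq_two.1 (h2 w)
    have m1 : c (z + 1) ∈ F.neighborSet w := by
      rw [← hz']
      exact (h4 z).2
    have m2 : c (z - 1) ∈ F.neighborSet w := by
      rw [← hz']
      have := (h4 (z - 1)).2
      rw [sub_add_cancel] at this
      exact this.symm
    have m3 : (⟨(5, k, 0, 0), hv5⟩ : {x // x ∈ vs φ}) ∈ F.neighborSet w := hw.symm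
    have hne : c (z + 1) ≠ c (z - 1) := by
      intro e
      have e1 := h3 e
      have e2 : (2 : ZMod m) = 0 := by
        calc (2 : ZMod m) = (z + 1) - (z - 1) := by ring
          _ = 0 := by rw [e1, sub_self]
      have e3 : ((2 : ℕ) : ZMod m) = 0 := by exact_mod_cast e2
      rw [ZMod.natCast_eq_zero_iff] at e3
      have := Nat.le_of_dvd (by omega) e3
      omega
    have hcS : ∀ u, c u ≠ ⟨(5, k, 0, 0), hv5⟩ := fun u e => d5 k ⟨u, congrArg Subtype.val e⟩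
    rw [hN'] at m1 m2 m3
    simp only [Set.mem_insert_iff, Set.mem_singleton_iff] at m1 m2 m3
    have n1 := hcS (z + 1)
    have n2 := hcS (z - 1)
    rcases m1 with m1 | m1 <;> rcases m2 with m2 | m2 <;> rcases m3 with m3 | m3 <;>
      first
      | exact hne (m1.trans m2.symm)
      | exact n1 (m1.trans m3.symm)
      | exact n2 (m2.trans m3.symm)
  have hn0 : ¬ S (1, l.2.1, l.2.2.toNat, 0) := fun h5 => hnS (hwl ▸ p3 _ _ _ (by omega) h5)
  obtain ⟨s, hs, h6⟩ := p5 _ (a2 _ hx)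
  have hs' : s = 0 ∨ s = 1 := by omega
  cases hb : l.2.2 with
  | true =>
    rw [hb] at hn0
    rcases hs' with rfl | rfl
    · simpa using h6
    · exact absurd h6 hn0
  | false =>
    rw [hb] at hn0
    simpa using hn0

/-! ### from an assignment to a 2-factor -/

/-- the cyclic predecessor -/
def prd (n i : ℕ) : ℕ := (i + (n - 1)) % n

theorem prd_succ_mod {n i : ℕ} (h : i < n) : prd n ((i + 1) % n) = i := by
  rw [prd, Nat.mod_add_mod]
  have : i + 1 + (n - 1) = i + n := by omega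
  rw [this, Nat.add_mod_right, Nat.mod_eq_of_lt h]

section fwd
variable (v : ℕ → Bool) (w : ℕ → T)

/-- the path used by the directed cycle -/
def onC (i s : ℕ) : Prop := s = (!v i).toNat
/-- the vertex `(1, p)` is used by the clause `p.2.2 / 3` -/
def ch (p : ℕ × ℕ × ℕ) : Prop := p.2.2 / 3 < φ.length ∧ w (p.2.2 / 3) = (1, p)

instance (i s) : Decidable (onC v i s) := by unfold onC; infer_instance
instance (p) : Decidable (ch φ w p) := by unfold ch; infer_instance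

/-- the successor permutation of the 2-factor -/
def sg (t : T) : T :=
  if t.1 = 0 then (1, t.2.1, (!v t.2.1).toNat, 0)
  else if t.1 = 1 then
    if onC v t.2.1 t.2.2.1 then
      if t.2.2.2 + 1 < Ln φ then (1, t.2.1, t.2.2.1, t.2.2.2 + 1) else (0, (t.2.1 + 1) % nv φ, 0, 0)
    else if ch φ w t.2 then (5, t.2.2.2 / 3, 0, 0) else (2, t.2)
  else if t.1 = 2 then (3, t.2)
  else if t.1 = 3 then (4, t.2)
  else if t.1 = 4 then (if onC v t.2.1 t.2.2.1 ∨ ch φ w t.2 then (2, t.2) else (1, t.2))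
  else if t.1 = 5 then (6, t.2)
  else w t.2.1

/-- its left inverse -/
def tu (t : T) : T :=
  if t.1 = 0 then (1, prd (nv φ) t.2.1, (!v (prd (nv φ) t.2.1)).toNat, Ln φ - 1)
  else if t.1 = 1 then
    if onC v t.2.1 t.2.2.1 then
      if t.2.2.2 = 0 then (0, t.2.1, 0, 0) else (1, t.2.1, t.2.2.1, t.2.2.2 - 1)
    else if ch φ w t.2 then (6, t.2.2.2 / 3, 0, 0) else (4, t.2)
  else if t.1 = 2 then (if onC v t.2.1 t.2.2.1 ∨ ch φ w t.2 then (4, t.2) else (1, t.2))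
  else if t.1 = 3 then (2, t.2)
  else if t.1 = 4 then (3, t.2)
  else if t.1 = 5 then w t.2.1
  else (5, t.2)

end fwd

theorem forward (hφ : ∀ C ∈ φ, ∀ x ∈ C.vars, x < 3 * φ.length) (hs : Sat3 φ) : Fac (R φ) := by
  have hnv : nv φ = 3 * φ.length + 3 := rfl
  have hLn : Ln φ = 3 * φ.length + 2 := rfl
  obtain ⟨v, hv⟩ := hs
  have h1 : ∀ k, ∃ l : ℕ × ℕ × Bool, ∀ hk : k < φ.length, l ∈ lits φ[k] ∧ v l.2.1 = l.2.2 := by
    intro k
    by_cases hk : k < φ.length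
    · obtain ⟨l, h1, h2⟩ := (ok_lits v _).1 (hv _ (List.getElem_mem hk))
      exact ⟨l, fun _ => ⟨h1, h2⟩⟩
    · exact ⟨(0, 0, false), fun h => absurd h hk⟩
  choose l hl1 using h1
  let w : ℕ → T := fun k => (1, (l k).2.1, (v (l k).2.1).toNat, 3 * k + (l k).1)
  have hw1 : ∀ k, w k = (1, (w k).2) := fun k => rfl
  have hw3 : ∀ k < φ.length, (w k).2.2.2 / 3 = k := by
    intro k hk
    have h2 := lits_lt (hl1 k hk).1
    show (3 * k + (l k).1) / 3 = k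
    omega
  have hwb : ∀ k < φ.length, (w k).2 ∈ blk φ := by
    intro k hk
    have h2 := lits_lt (hl1 k hk).1
    rw [mem_blk]
    refine ⟨?_, ?_, ?_⟩
    · have h3 := hφ _ (List.getElem_mem hk) (l k).2.1 (by
        have := (hl1 k hk).1
        simp only [lits, List.mem_cons, List.not_mem_nil, or_false] at this
        rcases this with e | e | e <;> rw [e] <;> simp [Cl3.vars])
      show (l k).2.1 < _
      omega
    · show (v (l k).2.1).toNat < 2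
      cases v (l k).2.1 <;> simp
    · show 3 * k + (l k).1 < _
      omega
  have hwc : ∀ k, ¬ onC v (w k).2.1 (w k).2.2.1 := by
    intro k
    show ¬ (v (l k).2.1).toNat = (!v (l k).2.1).toNat
    cases v (l k).2.1 <;> simp
  have hwh : ∀ k < φ.length, ch φ w (w k).2 := by
    intro k hk
    unfold ch
    rw [hw3 k hk]
    exact ⟨hk, rfl⟩
  have hch : ∀ p, ch φ w p → ¬ onC v p.1 p.2.1 := by
    intro p h
    have h2 := hwc (p.2.2 / 3)
    rw [h.2] at h2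
    exact h2
  -- the cases of a vertex
  have hcase : ∀ t ∈ vs φ, (∃ i < nv φ, t = (0, i, 0, 0)) ∨
      (∃ i s j, (i, s, j) ∈ blk φ ∧ onC v i s ∧ j + 1 < Ln φ ∧ t = (1, i, s, j)) ∨
      (∃ i s, (i, s, Ln φ - 1) ∈ blk φ ∧ onC v i s ∧ t = (1, i, s, Ln φ - 1)) ∨
      (∃ k < φ.length, t = w k) ∨
      (∃ p ∈ blk φ, ¬ onC v p.1 p.2.1 ∧ ¬ ch φ w p ∧ t = (1, p)) ∨
      (∃ p ∈ blk φ, t = (2, p)) ∨ (∃ p ∈ blk φ, t = (3, p)) ∨
      (∃ p ∈ blk φ, (onC v p.1 p.2.1 ∨ ch φ w p) ∧ t = (4, p)) ∨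
      (∃ p ∈ blk φ, ¬ (onC v p.1 p.2.1 ∨ ch φ w p) ∧ t = (4, p)) ∨
      (∃ k < φ.length, t = (5, k, 0, 0)) ∨ ∃ k < φ.length, t = (6, k, 0, 0) := by
    intro t ht
    rcases (mem_vs φ _).1 ht with ⟨i, hi, e⟩ | ⟨p, hp, e | e | e | e⟩ | ⟨k, hk, e | e⟩
    · exact .inl ⟨i, hi, e⟩
    · obtain ⟨i, s, j⟩ := p
      by_cases hc : onC v i s
      · by_cases hj : j + 1 < Ln φ
        · exact .inr (.inl ⟨i, s, j, hp, hc, hj, e⟩)
        · have h2 := (mem_blk φ _).1 hp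
          obtain rfl : j = Ln φ - 1 := by simp only at h2; omega
          exact .inr (.inr (.inl ⟨i, s, hp, hc, e⟩))
      · by_cases hh : ch φ w (i, s, j)
        · exact .inr (.inr (.inr (.inl ⟨j / 3, hh.1, e.trans hh.2.symm⟩)))
        · exact .inr (.inr (.inr (.inr (.inl ⟨_, hp, hc, hh, e⟩))))
    · exact .inr (.inr (.inr (.inr (.inr (.inl ⟨p, hp, e⟩)))))
    · exact .inr (.inr (.inr (.inr (.inr (.inr (.inl ⟨p, hp, e⟩))))))
    · by_cases hc : onC v p.1 p.2.1 ∨ ch φ w p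
      · exact .inr (.inr (.inr (.inr (.inr (.inr (.inr (.inl ⟨p, hp, hc, e⟩)))))))
      · exact .inr (.inr (.inr (.inr (.inr (.inr (.inr (.inr (.inl ⟨p, hp, hc, e⟩))))))))
    · exact .inr (.inr (.inr (.inr (.inr (.inr (.inr (.inr (.inr (.inl ⟨k, hk, e⟩)))))))))
    · exact .inr (.inr (.inr (.inr (.inr (.inr (.inr (.inr (.inr (.inr ⟨k, hk, e⟩)))))))))
  -- values of the permutation
  have s0 : ∀ i a b, sg φ v w (0, i, a, b) = (1, i, (!v i).toNat, 0) := fun i a b => rfl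
  have s1a : ∀ i s j, onC v i s → j + 1 < Ln φ → sg φ v w (1, i, s, j) = (1, i, s, j + 1) := by
    intro i s j h2 h3
    simp [sg, h2, h3]
  have s1b : ∀ i s, onC v i s → sg φ v w (1, i, s, Ln φ - 1) = (0, (i + 1) % nv φ, 0, 0) := by
    intro i s h2
    have : ¬ (Ln φ - 1 + 1 < Ln φ) := by omega
    simp [sg, h2, this]
  have s1c : ∀ k < φ.length, sg φ v w (w k) = (5, k, 0, 0) := by
    intro k hk
    have h2 := hwc k
    have h3 := hwh k hk
    have h4 : (w k).1 = 1 := rfl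
    simp [sg, h2, h3, h4, hw3 k hk]
  have s1d : ∀ p : ℕ × ℕ × ℕ, ¬ onC v p.1 p.2.1 → ¬ ch φ w p → sg φ v w (1, p) = (2, p) := by
    intro p h2 h3
    simp [sg, h2, h3]
  have s2 : ∀ p, sg φ v w (2, p) = (3, p) := fun p => by simp [sg]
  have s3 : ∀ p, sg φ v w (3, p) = (4, p) := fun p => by simp [sg]
  have s4a : ∀ p : ℕ × ℕ × ℕ, (onC v p.1 p.2.1 ∨ ch φ w p) → sg φ v w (4, p) = (2, p) := by
    intro p h2
    simp [sg, h2]
  have s4b : ∀ p : ℕ × ℕ × ℕ, ¬ (onC v p.1 p.2.1 ∨ ch φ w p) → sg φ v w (4, p) = (1, p) := by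
    intro p h2
    rw [sg, if_neg (by simp), if_neg (by simp), if_neg (by simp), if_neg (by simp), if_pos rfl, if_neg h2]
  have s5 : ∀ p, sg φ v w (5, p) = (6, p) := fun p => by simp [sg]
  have s6 : ∀ k a b, sg φ v w (6, k, a, b) = w k := fun k a b => by simp [sg]
  have hmem : ∀ t ∈ vs φ, sg φ v w t ∈ vs φ := by
    intro t ht
    have v0 : ∀ i < nv φ, ((0, i, 0, 0) : T) ∈ vs φ := fun i hi => (mem_vs φ _).2 (.inl ⟨i, hi, rfl⟩)
    have v1 : ∀ p ∈ blk φ, ((1, p) : T) ∈ vs φ := fun p hp => (mem_vs φ _).2 (.inr (.inl ⟨p, hp, .inl rfl⟩))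
    have v2 : ∀ p ∈ blk φ, ((2, p) : T) ∈ vs φ := fun p hp => (mem_vs φ _).2 (.inr (.inl ⟨p, hp, .inr (.inl rfl)⟩))
    have v3 : ∀ p ∈ blk φ, ((3, p) : T) ∈ vs φ := fun p hp =>
      (mem_vs φ _).2 (.inr (.inl ⟨p, hp, .inr (.inr (.inl rfl))⟩))
    have v4 : ∀ p ∈ blk φ, ((4, p) : T) ∈ vs φ := fun p hp =>
      (mem_vs φ _).2 (.inr (.inl ⟨p, hp, .inr (.inr (.inr rfl))⟩))
    have v5 : ∀ k < φ.length, ((5, k, 0, 0) : T) ∈ vs φ := fun k hk => (mem_vs φ _).2 (.inr (.inr ⟨k, hk, .inl rfl⟩))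
    have v6 : ∀ k < φ.length, ((6, k, 0, 0) : T) ∈ vs φ := fun k hk => (mem_vs φ _).2 (.inr (.inr ⟨k, hk, .inr rfl⟩))
    rcases hcase t ht with ⟨i, hi, rfl⟩ | ⟨i, s, j, hp, hc, hj, rfl⟩ | ⟨i, s, hp, hc, rfl⟩ | ⟨k, hk, rfl⟩ |
      ⟨p, hp, hc, hh, rfl⟩ | ⟨p, hp, rfl⟩ | ⟨p, hp, rfl⟩ | ⟨p, hp, hc, rfl⟩ | ⟨p, hp, hc, rfl⟩ | ⟨k, hk, rfl⟩ | ⟨k, hk, rfl⟩
    · rw [s0]
      exact v1 _ ((mem_blk φ _).2 ⟨hi, by show (!v i).toNat < 2; cases v i <;> simp, by show 0 < Ln φ; omega⟩)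
    · rw [s1a _ _ _ hc hj]
      rw [mem_blk] at hp
      exact v1 _ ((mem_blk φ _).2 ⟨hp.1, hp.2.1, hj⟩)
    · rw [s1b _ _ hc]
      exact v0 _ (Nat.mod_lt _ (by omega))
    · rw [s1c k hk]
      exact v5 k hk
    · rw [s1d p hc hh]
      exact v2 p hp
    · rw [s2]
      exact v3 p hp
    · rw [s3]
      exact v4 p hp
    · rw [s4a p hc]
      exact v2 p hp
    · rw [s4b p hc]
      exact v1 p hp
    · rw [s5]
      exact v6 k hk
    · rw [s6, hw1]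
      exact v1 _ (hwb k hk)
  have hinv : ∀ t ∈ vs φ, tu φ v w (sg φ v w t) = t := by
    intro t ht
    rcases hcase t ht with ⟨i, hi, rfl⟩ | ⟨i, s, j, hp, hc, hj, rfl⟩ | ⟨i, s, hp, hc, rfl⟩ | ⟨k, hk, rfl⟩ |
      ⟨p, hp, hc, hh, rfl⟩ | ⟨p, hp, rfl⟩ | ⟨p, hp, rfl⟩ | ⟨p, hp, hc, rfl⟩ | ⟨p, hp, hc, rfl⟩ | ⟨k, hk, rfl⟩ | ⟨k, hk, rfl⟩
    · rw [s0]
      simp [tu, onC]
    · rw [s1a _ _ _ hc hj]
      simp [tu, hc]
    · rw [s1b _ _ hc]
      have hi : i < nv φ := ((mem_blk φ _).1 hp).1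
      have hs : s = (!v i).toNat := hc
      simp [tu, prd_succ_mod hi, hs]
    · rw [s1c k hk]
      simp [tu]
    · rw [s1d p hc hh]
      simp [tu, hc, hh]
    · rw [s2]
      simp [tu]
    · rw [s3]
      simp [tu]
    · rw [s4a p hc]
      simp [tu, hc]
    · rw [s4b p hc]
      rw [not_or] at hc
      simp [tu, hc.1, hc.2]
    · rw [s5]
      simp [tu]
    · rw [s6]
      have h2 := hwc k
      have h3 := hwh k hk
      have h4 : (w k).1 = 1 := rfl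
      simp [tu, h2, h3, h4, hw3 k hk]
  let sgS : {x // x ∈ vs φ} → {x // x ∈ vs φ} := fun t => ⟨sg φ v w t.1, hmem _ t.2⟩
  have hinj : Function.Injective sgS := by
    intro t t' e
    have := congrArg (fun x : {x // x ∈ vs φ} => tu φ v w x.1) e
    simp only [sgS, hinv _ t.2, hinv _ t'.2] at this
    exact Subtype.ext this
  have hbij : Function.Bijective sgS := Finite.injective_iff_bijective.1 hinj
  let σ : {x // x ∈ vs φ} ≃ {x // x ∈ vs φ} := Equiv.ofBijective sgS hbij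
  have hσ : ∀ t, (σ t).1 = sg φ v w t.1 := fun t => rfl
  have n12 : ∀ t ∈ vs φ, sg φ v w t ≠ t ∧ sg φ v w (sg φ v w t) ≠ t := by
    intro t ht
    rcases hcase t ht with ⟨i, hi, rfl⟩ | ⟨i, s, j, hp, hc, hj, rfl⟩ | ⟨i, s, hp, hc, rfl⟩ | ⟨k, hk, rfl⟩ |
      ⟨p, hp, hc, hh, rfl⟩ | ⟨p, hp, rfl⟩ | ⟨p, hp, rfl⟩ | ⟨p, hp, hc, rfl⟩ | ⟨p, hp, hc, rfl⟩ | ⟨k, hk, rfl⟩ | ⟨k, hk, rfl⟩
    · rw [s0, s1a _ _ _ rfl (by omega)]
      simp
    · rw [s1a _ _ _ hc hj]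
      refine ⟨by simp, ?_⟩
      by_cases h2 : j + 1 + 1 < Ln φ
      · rw [s1a _ _ _ hc h2]
        simp only [ne_eq, Prod.mk.injEq, true_and]
        omega
      · obtain h3 : j + 1 = Ln φ - 1 := by omega
        rw [h3, s1b _ _ hc]
        simp
    · rw [s1b _ _ hc, s0]
      refine ⟨by simp, ?_⟩
      simp only [ne_eq, Prod.mk.injEq, true_and, not_and]
      intro _ _
      omega
    · rw [s1c k hk, s5, hw1]
      simp
    · rw [s1d p hc hh, s2]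
      simp
    · rw [s2, s3]
      simp
    · rw [s3]
      refine ⟨by simp, ?_⟩
      by_cases h2 : onC v p.1 p.2.1 ∨ ch φ w p
      · rw [s4a p h2]
        simp
      · rw [s4b p h2]
        simp
    · rw [s4a p hc, s2]
      simp
    · rw [s4b p hc]
      rw [not_or] at hc
      rw [s1d p hc.1 hc.2]
      simp
    · rw [s5, s6, hw1]
      simp
    · rw [s6, s1c k hk, hw1]
      simp
  have hR : ∀ t ∈ vs φ, (t, sg φ v w t) ∈ es φ ∨ (sg φ v w t, t) ∈ es φ := by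
    intro t ht
    rcases hcase t ht with ⟨i, hi, rfl⟩ | ⟨i, s, j, hp, hc, hj, rfl⟩ | ⟨i, s, hp, hc, rfl⟩ | ⟨k, hk, rfl⟩ |
      ⟨p, hp, hc, hh, rfl⟩ | ⟨p, hp, rfl⟩ | ⟨p, hp, rfl⟩ | ⟨p, hp, hc, rfl⟩ | ⟨p, hp, hc, rfl⟩ | ⟨k, hk, rfl⟩ | ⟨k, hk, rfl⟩
    · rw [s0]
      exact .inl ((mem_es φ _ _).2 (.inl ⟨i, hi, _, by cases v i <;> simp, .inl ⟨rfl, rfl⟩⟩))
    · rw [s1a _ _ _ hc hj]
      rw [mem_blk] at hp
      exact .inl ((mem_es φ _ _).2 (.inr (.inl ⟨i, hp.1, s, hp.2.1, j, by omega, rfl, rfl⟩)))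
    · rw [s1b _ _ hc]
      rw [mem_blk] at hp
      exact .inl ((mem_es φ _ _).2 (.inl ⟨i, hp.1, s, hp.2.1, .inr ⟨rfl, rfl⟩⟩))
    · rw [s1c k hk]
      refine .inl ((mem_es φ _ _).2 (.inr (.inr (.inr ⟨k, φ[k], List.getElem?_eq_getElem hk, .inr ⟨l k, (hl1 k hk).1,
        .inl ⟨?_, rfl⟩⟩⟩))))
      simp only [w, (hl1 k hk).2]
    · rw [s1d p hc hh]
      exact .inl ((mem_es φ _ _).2 (.inr (.inr (.inl ⟨p, hp, .inl ⟨rfl, rfl⟩⟩))))
    · rw [s2]
      exact .inl ((mem_es φ _ _).2 (.inr (.inr (.inl ⟨p, hp, .inr (.inr (.inl ⟨rfl, rfl⟩))⟩))))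
    · rw [s3]
      exact .inl ((mem_es φ _ _).2 (.inr (.inr (.inl ⟨p, hp, .inr (.inr (.inr (.inl ⟨rfl, rfl⟩)))⟩))))
    · rw [s4a p hc]
      exact .inr ((mem_es φ _ _).2 (.inr (.inr (.inl ⟨p, hp, .inr (.inr (.inr (.inr ⟨rfl, rfl⟩)))⟩))))
    · rw [s4b p hc]
      exact .inr ((mem_es φ _ _).2 (.inr (.inr (.inl ⟨p, hp, .inr (.inl ⟨rfl, rfl⟩)⟩))))
    · rw [s5]
      exact .inl ((mem_es φ _ _).2 (.inr (.inr (.inr ⟨k, φ[k], List.getElem?_eq_getElem hk, .inl ⟨rfl, rfl⟩⟩))))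
    · rw [s6]
      refine .inr ((mem_es φ _ _).2 (.inr (.inr (.inr ⟨k, φ[k], List.getElem?_eq_getElem hk, .inr ⟨l k, (hl1 k hk).1,
        .inr ⟨?_, rfl⟩⟩⟩))))
      simp only [w, (hl1 k hk).2]
  -- the directed cycle
  let f : ℕ → T := fun t => if t % (Ln φ + 1) = 0 then (0, t / (Ln φ + 1), 0, 0) else
    (1, t / (Ln φ + 1), (!v (t / (Ln φ + 1))).toNat, t % (Ln φ + 1) - 1)
  have f0 : ∀ i, f (i * (Ln φ + 1)) = (0, i, 0, 0) := by
    intro i
    have e1 : i * (Ln φ + 1) % (Ln φ + 1) = 0 := Nat.mul_mod_left _ _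
    have e2 : i * (Ln φ + 1) / (Ln φ + 1) = i := Nat.mul_div_cancel _ (by omega)
    simp only [f, e1, e2, if_true]
  have f1 : ∀ i r, r < Ln φ → f (i * (Ln φ + 1) + (r + 1)) = (1, i, (!v i).toNat, r) := by
    intro i r hr
    have e1 : (i * (Ln φ + 1) + (r + 1)) % (Ln φ + 1) = r + 1 := by
      rw [Nat.add_comm, Nat.add_mul_mod_self_right, Nat.mod_eq_of_lt (by omega)]
    have e2 : (i * (Ln φ + 1) + (r + 1)) / (Ln φ + 1) = i := by
      rw [Nat.add_comm, Nat.add_mul_div_right _ _ (by omega), Nat.div_eq_of_lt (by omega), Nat.zero_add]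
    simp only [f, e1, e2]
    rw [if_neg (by omega), Nat.add_sub_cancel]
  have hdec : ∀ t < nv φ * (Ln φ + 1), ∃ i < nv φ, (t = i * (Ln φ + 1) ∨ ∃ r < Ln φ, t = i * (Ln φ + 1) + (r + 1)) := by
    intro t ht
    refine ⟨t / (Ln φ + 1), Nat.div_lt_of_lt_mul (by rwa [mul_comm] at ht), ?_⟩
    have e1 := Nat.div_add_mod t (Ln φ + 1)
    have e2 := Nat.mod_lt t (show Ln φ + 1 > 0 by omega)
    rw [mul_comm] at e1
    by_cases h0 : t % (Ln φ + 1) = 0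
    · left; omega
    · right
      exact ⟨t % (Ln φ + 1) - 1, by omega, by omega⟩
  have fmem : ∀ t < nv φ * (Ln φ + 1), f t ∈ vs φ := by
    intro t ht
    obtain ⟨i, hi, rfl | ⟨r, hr, rfl⟩⟩ := hdec t ht
    · rw [f0]
      exact (mem_vs φ _).2 (.inl ⟨i, hi, rfl⟩)
    · rw [f1 _ _ hr]
      exact (mem_vs φ _).2 (.inr (.inl ⟨_, (mem_blk φ _).2 ⟨hi, by show (!v i).toNat < 2; cases v i <;> simp, hr⟩,
        .inl rfl⟩))
  have finj : ∀ t < nv φ * (Ln φ + 1), ∀ t' < nv φ * (Ln φ + 1), f t = f t' → t = t' := by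
    intro t ht t' ht' e
    obtain ⟨i, hi, rfl | ⟨r, hr, rfl⟩⟩ := hdec t ht <;> obtain ⟨i', hi', rfl | ⟨r', hr', rfl⟩⟩ := hdec t' ht'
    · rw [f0, f0] at e
      simp only [Prod.mk.injEq, true_and, and_true] at e
      rw [e]
    · rw [f0, f1 _ _ hr'] at e
      simp at e
    · rw [f0, f1 _ _ hr] at e
      simp at e
    · rw [f1 _ _ hr, f1 _ _ hr'] at e
      simp only [Prod.mk.injEq, true_and] at e
      rw [e.1, e.2.2]
  have fsuc : ∀ t < nv φ * (Ln φ + 1), f ((t + 1) % (nv φ * (Ln φ + 1))) = sg φ v w (f t) ∧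
      (f t, sg φ v w (f t)) ∈ es φ := by
    intro t ht
    obtain ⟨i, hi, h2⟩ := hdec t ht
    have hi' : (i + 1) * (Ln φ + 1) ≤ nv φ * (Ln φ + 1) := Nat.mul_le_mul_right _ hi
    rw [Nat.succ_mul] at hi'
    rcases h2 with rfl | ⟨r, hr, rfl⟩
    · rw [Nat.mod_eq_of_lt (by omega), f0, s0, f1 i 0 (by omega)]
      exact ⟨rfl, (mem_es φ _ _).2 (.inl ⟨i, hi, _, by cases v i <;> simp, .inl ⟨rfl, rfl⟩⟩)⟩
    · rw [f1 _ _ hr]
      by_cases h2 : r + 1 < Ln φ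
      · rw [Nat.mod_eq_of_lt (by omega), s1a _ _ _ rfl h2, add_assoc, f1 i (r + 1) h2]
        exact ⟨rfl, (mem_es φ _ _).2 (.inr (.inl ⟨i, hi, _, by cases v i <;> simp, r, by omega, rfl, rfl⟩))⟩
      · obtain rfl : r = Ln φ - 1 := by omega
        rw [s1b _ _ rfl]
        refine ⟨?_, (mem_es φ _ _).2 (.inl ⟨i, hi, _, by cases v i <;> simp, .inr ⟨rfl, rfl⟩⟩)⟩
        have e1 : i * (Ln φ + 1) + (Ln φ - 1 + 1) + 1 = (i + 1) * (Ln φ + 1) := by
          rw [Nat.succ_mul]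
          omega
        rw [e1, Nat.mul_mod_mul_right, f0]
  have hM : 3 ≤ nv φ * (Ln φ + 1) := by nlinarith
  have : NeZero (nv φ * (Ln φ + 1)) := ⟨by omega⟩
  refine ⟨SimpleGraph.fromRel fun x y => σ x = y, ?_, perm_factor σ (fun x e => (n12 _ x.2).1 (congrArg Subtype.val e))
    (fun x e => (n12 _ x.2).2 (congrArg Subtype.val e)), nv φ * (Ln φ + 1), hM,
    fun z => ⟨f z.val, fmem _ (ZMod.val_lt z)⟩, fun z z' e => ZMod.val_injective _
      (finj _ (ZMod.val_lt z) _ (ZMod.val_lt z') (congrArg Subtype.val e)), fun z => ?_⟩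
  · rintro x y ⟨-, rfl | rfl⟩
    · exact hR _ x.2
    · exact (hR _ y.2).symm
  · have h2 := fsuc _ (ZMod.val_lt z)
    rw [← val_succ hM] at h2
    refine ⟨?_, ?_⟩
    · show (f z.val, f (z + 1).val) ∈ es φ
      rw [h2.1]
      exact h2.2
    · rw [SimpleGraph.fromRel_adj]
      have e : σ ⟨f z.val, fmem _ (ZMod.val_lt z)⟩ = ⟨f (z + 1).val, fmem _ (ZMod.val_lt (z + 1))⟩ :=
        Subtype.ext h2.1.symm
      exact ⟨fun e' => (n12 _ (fmem _ (ZMod.val_lt z))).1 (h2.1.symm.trans (congrArg Subtype.val e').symm), .inl e⟩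

theorem hard_iff (hφ : ∀ C ∈ φ, ∀ x ∈ C.vars, x < 3 * φ.length) : Sat3 φ ↔ HasFac (mkGr (vs φ) (es φ)) := by
  constructor
  · intro h
    exact (forward φ hφ h).of_equiv (mkGrEquiv (vs φ) (es φ)).symm fun u v => by
      rw [mkGr_arc]
      simp [R]
  · intro h
    exact backward φ hφ (h.of_equiv (mkGrEquiv (vs φ) (es φ)) fun u v => mkGr_arc _ _ u v)

theorem hasFac_hard : NPHard HasFac :=
  NPHard.of_sat3 (fun φ => mkGr (vs φ) (es φ)) (by unfold vs es blk lits nv Ln; fun_prop) fun φ hφ => hard_iff φ hφ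

end Pool.Agent.Run7.h878.TF
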